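import Pool.Agent.Helper87.MD.Goals

/-!
# Packet MD-LAT (MP_c307ca_nt): the lattice lemma

Let `α = s ξ`, and let `w ≤ X` minimise `max (w / X) (nd (w α) / η)`, with minimum `lam`. The
integers `x (w α - r(w)) - w (x α - r(x))` are at most `2 lam η X` in absolute value, and two
elements with the same integer differ by at least `w`.
-/

set_option autoImplicit false

open Finset
open scoped Classical

namespace Pool.Agent.Helper40.MD

open Pool.Agent.Helper98.Lang Pool.Agent.Helper87.MD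

theorem nd_nonneg (x : ℝ) : 0 ≤ nd x := abs_nonneg _

theorem nd_le (x : ℝ) (n : ℤ) : nd x ≤ |x - n| := round_le x n

/-- the integer `x m_w - w m_x` -/
noncomputable def DI (α : ℝ) (w x : ℕ) : ℤ :=
  x * round ((w : ℝ) * α) - w * round ((x : ℝ) * α)

theorem DI_eq (α : ℝ) (w x : ℕ) : (DI α w x : ℝ) =
    w * (x * α - round ((x : ℝ) * α)) - x * (w * α - round ((w : ℝ) * α)) := by
  unfold DI
  push_cast
  ring

theorem lat_core (α : ℝ) (X w : ℕ) (η lam : ℝ) (hw1 : 1 ≤ w) (hX : 1 ≤ X) (hη : 0 < η)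
    (hlam : 0 < lam) (hlam1 : lam ≤ 1) (hwX : (w : ℝ) ≤ lam * X) (hρ : nd (w * α) ≤ lam * η)
    (hρ0 : 0 < nd (w * α)) (hmax : lam * X ≤ w ∨ lam * η ≤ nd (w * α))
    (hmin : ∀ u : ℕ, 1 ≤ u → u ≤ X → (u : ℝ) < lam * X → nd (u * α) < lam * η → False) :
    (((Icc 1 X).filter (fun x : ℕ => nd ((x : ℝ) * α) ≤ η)).card : ℝ) ≤
      3 / lam + 12 * η * X := by
  set S := (Icc 1 X).filter (fun x : ℕ => nd ((x : ℝ) * α) ≤ η) with hS
  have hw0 : (0 : ℝ) < w := by exact_mod_cast hw1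
  have hX0 : (0 : ℝ) < X := by exact_mod_cast hX
  have hSm : ∀ x ∈ S, 1 ≤ x ∧ x ≤ X ∧ nd ((x : ℝ) * α) ≤ η := by
    intro x hx
    rw [hS, mem_filter, mem_Icc] at hx
    exact ⟨hx.1.1, hx.1.2, hx.2⟩
  have hdiff : ∀ x ∈ S, ∀ x' ∈ S, x < x' → DI α w x = DI α w x' →
      w ≤ x' - x ∧ ((x' : ℝ) - x) * nd (w * α) ≤ w * (2 * η) := by
    intro x hx x' hx' hlt hD
    obtain ⟨hx1, hxX, hxη⟩ := hSm x hx
    obtain ⟨hx1', hxX', hxη'⟩ := hSm x' hx'
    have hxx : (0 : ℝ) < x' - x := by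
      have : (x : ℝ) < x' := by exact_mod_cast hlt
      linarith
    have h1 : (DI α w x : ℝ) = DI α w x' := by rw [hD]
    rw [DI_eq, DI_eq] at h1
    have h2 : (w : ℝ) * ((x' * α - round ((x' : ℝ) * α)) - (x * α - round ((x : ℝ) * α))) =
        (x' - x) * (w * α - round ((w : ℝ) * α)) := by linarith
    have h3 : (w : ℝ) * |(x' * α - round ((x' : ℝ) * α)) - (x * α - round ((x : ℝ) * α))| =
        (x' - x) * nd (w * α) := by
      have h := congrArg abs h2
      rw [abs_mul, abs_mul, abs_of_pos hw0, abs_of_pos hxx] at h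
      exact h
    constructor
    · by_contra hc
      rw [not_le] at hc
      have hu : ((x' - x : ℕ) : ℝ) = x' - x := by rw [Nat.cast_sub hlt.le]
      have hc' : ((x' - x : ℕ) : ℝ) < w := by exact_mod_cast hc
      have h4 : nd (((x' - x : ℕ) : ℝ) * α) ≤
          |(x' * α - round ((x' : ℝ) * α)) - (x * α - round ((x : ℝ) * α))| := by
        refine (nd_le _ (round ((x' : ℝ) * α) - round ((x : ℝ) * α))).trans (le_of_eq ?_)
        rw [hu]
        congr 1
        push_cast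
        ring
      have h5 : (w : ℝ) * nd (((x' - x : ℕ) : ℝ) * α) ≤ ((x' - x : ℕ) : ℝ) * nd (w * α) := by
        calc (w : ℝ) * nd (((x' - x : ℕ) : ℝ) * α)
            ≤ w * |(x' * α - round ((x' : ℝ) * α)) - (x * α - round ((x : ℝ) * α))| :=
              mul_le_mul_of_nonneg_left h4 hw0.le
          _ = ((x' - x : ℕ) : ℝ) * nd (w * α) := by rw [h3, hu]
      have h6 : ((x' - x : ℕ) : ℝ) * nd (w * α) < w * nd (w * α) :=
        mul_lt_mul_of_pos_right hc' hρ0
      have h7 : nd (((x' - x : ℕ) : ℝ) * α) < nd (w * α) :=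
        lt_of_mul_lt_mul_left (h5.trans_lt h6) hw0.le
      exact hmin (x' - x) (by omega) (by omega) (hc'.trans_le hwX) (h7.trans_le hρ)
    · rw [← h3]
      apply mul_le_mul_of_nonneg_left _ hw0.le
      have h4 := abs_le.1 hxη
      have h5 := abs_le.1 hxη'
      exact abs_le.2 ⟨by linarith, by linarith⟩
  have hfib : ∀ b ∈ S.image (DI α w), (S.filter (fun a => DI α w a = b)).card ≤
      ⌊2 / lam⌋₊ + 1 := by
    intro b _
    rcases (S.filter (fun a => DI α w a = b)).eq_empty_or_nonempty with he | hne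
    · rw [he]
      simp
    · set F := S.filter (fun a => DI α w a = b) with hF
      have hFm : ∀ x ∈ F, x ∈ S ∧ DI α w x = b := fun x hx => by rwa [hF, mem_filter] at hx
      obtain ⟨x0, hx0F, hle⟩ : ∃ x0 ∈ F, ∀ x ∈ F, x0 ≤ x :=
        ⟨F.min' hne, F.min'_mem hne, fun x hx => F.min'_le x hx⟩
      have hcr : (range (⌊2 / lam⌋₊ + 1)).card = ⌊2 / lam⌋₊ + 1 := card_range _
      rw [← hcr]
      have key : ∀ x ∈ F, ∀ x' ∈ F, x < x' → (x - x0) / w ≠ (x' - x0) / w := by
        intro x hx x' hx' hlt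
        have h2 := (hdiff x (hFm x hx).1 x' (hFm x' hx').1 hlt
          (by rw [(hFm x hx).2, (hFm x' hx').2])).1
        have h3 := hle x hx
        have h4 : (x - x0 + w) / w = (x - x0) / w + 1 := Nat.add_div_right _ hw1
        have h5 : (x - x0 + w) / w ≤ (x' - x0) / w := Nat.div_le_div_right (by omega)
        omega
      apply card_le_card_of_injOn (fun x => (x - x0) / w)
      · intro x hx
        have hx' : x ∈ F := hx
        have hgoal : (x - x0) / w < ⌊2 / lam⌋₊ + 1 := by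
          rw [Nat.lt_add_one_iff]
          apply Nat.le_floor
          have h1 : (((x - x0) / w : ℕ) : ℝ) ≤ ((x - x0 : ℕ) : ℝ) / w := Nat.cast_div_le
          refine h1.trans ?_
          rw [Nat.cast_sub (hle x hx'), div_le_div_iff₀ hw0 hlam]
          rcases (hle x hx').eq_or_lt with h | h
          · rw [h, sub_self, zero_mul]
            positivity
          · rcases hmax with hm | hm
            · have h2 : (x : ℝ) ≤ X := by exact_mod_cast (hSm x (hFm x hx').1).2.1
              have h3 : (0 : ℝ) ≤ x0 := Nat.cast_nonneg _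
              have h4 : ((x : ℝ) - x0) * lam ≤ X * lam :=
                mul_le_mul_of_nonneg_right (by linarith) hlam.le
              linarith
            · have h2 := (hdiff x0 (hFm x0 hx0F).1 x (hFm x hx').1 h
                (by rw [(hFm x0 hx0F).2, (hFm x hx').2])).2
              have hxx : (0 : ℝ) ≤ x - x0 := by
                have : (x0 : ℝ) ≤ x := by exact_mod_cast h.le
                linarith
              have h3 : ((x : ℝ) - x0) * (lam * η) ≤ w * (2 * η) :=
                (mul_le_mul_of_nonneg_left hm hxx).trans h2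
              have h4 : (((x : ℝ) - x0) * lam) * η ≤ (2 * w) * η := by linarith
              exact le_of_mul_le_mul_right h4 hη
        simpa using hgoal
      · intro x hx x' hx' hxx
        by_contra hne'
        rcases Nat.lt_or_gt_of_ne hne' with h | h
        · exact key x hx x' hx' h hxx
        · exact key x' hx' x hx h hxx.symm
  have himg : ((S.image (DI α w)).card : ℝ) ≤ 4 * lam * η * X + 1 := by
    have hT0 : 0 ≤ 2 * lam * η * X := by positivity
    have hsub : S.image (DI α w) ⊆ Icc (-⌊2 * lam * η * X⌋) ⌊2 * lam * η * X⌋ := by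
      intro z hz
      obtain ⟨x, hx, rfl⟩ := mem_image.1 hz
      obtain ⟨hx1, hxX, hxη⟩ := hSm x hx
      have h1 : |(DI α w x : ℝ)| ≤ 2 * lam * η * X := by
        rw [DI_eq]
        have h2 : |(w : ℝ) * (x * α - round ((x : ℝ) * α))| ≤ lam * X * η := by
          rw [abs_mul, abs_of_pos hw0]
          exact mul_le_mul hwX hxη (abs_nonneg _) (by positivity)
        have h3 : |(x : ℝ) * (w * α - round ((w : ℝ) * α))| ≤ X * (lam * η) := by
          rw [abs_mul, Nat.abs_cast]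
          exact mul_le_mul (by exact_mod_cast hxX) hρ (abs_nonneg _) hX0.le
        rw [abs_le] at h2 h3 ⊢
        constructor <;> linarith
      rw [mem_Icc, neg_le, Int.le_floor, Int.le_floor]
      rw [abs_le] at h1
      constructor
      · push_cast
        linarith
      · exact h1.2
    have h2 := card_le_card hsub
    rw [Int.card_Icc] at h2
    have hf0 : 0 ≤ ⌊2 * lam * η * X⌋ := Int.floor_nonneg.2 hT0
    have h3 : ((S.image (DI α w)).card : ℤ) ≤ 2 * ⌊2 * lam * η * X⌋ + 1 := by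
      omega
    have h4 : ((S.image (DI α w)).card : ℝ) ≤ 2 * (⌊2 * lam * η * X⌋ : ℝ) + 1 := by
      exact_mod_cast h3
    have h5 := Int.floor_le (2 * lam * η * X)
    linarith
  have hcard := card_le_mul_card_image S (⌊2 / lam⌋₊ + 1) hfib
  have h1 : (S.card : ℝ) ≤ (2 / lam + 1) * (4 * lam * η * X + 1) := by
    calc (S.card : ℝ) ≤ ((⌊2 / lam⌋₊ + 1 : ℕ) : ℝ) * (S.image (DI α w)).card := by
          exact_mod_cast hcard
      _ ≤ _ := by
          refine mul_le_mul ?_ himg (by positivity) (by positivity)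
          have := Nat.floor_le (show 0 ≤ 2 / lam by positivity)
          push_cast
          linarith
  have h2 : 2 / lam + 1 ≤ 3 / lam := by
    rw [div_add_one hlam.ne', div_le_div_iff_of_pos_right hlam]
    linarith
  calc (S.card : ℝ) ≤ (2 / lam + 1) * (4 * lam * η * X + 1) := h1
    _ ≤ (3 / lam) * (4 * lam * η * X + 1) := mul_le_mul_of_nonneg_right h2 (by positivity)
    _ = 3 / lam + 12 * η * X := by
        field_simp
        ring

theorem lat : LatStmt := by
  intro ξ hξ δ hδ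
  obtain ⟨c, hc, hR⟩ := hξ δ hδ
  refine ⟨12 + 3 / √c, by positivity, fun s X η hs hX hη => ?_⟩
  have hX0 : (0 : ℝ) < X := by exact_mod_cast hX
  have hs0 : (0 : ℝ) < s := by exact_mod_cast hs
  have hZ0 : 0 ≤ η * ((s : ℝ) * X) ^ (1 + δ) := by positivity
  have hsq : 0 < √c := Real.sqrt_pos.2 hc
  rcases ((Icc 1 X).filter (fun x : ℕ => nd ((x : ℝ) * (s * ξ)) ≤ η)).eq_empty_or_nonempty
    with he | ⟨x1, hx1⟩
  · rw [he, card_empty, Nat.cast_zero]
    positivity
  rw [mem_filter, mem_Icc] at hx1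
  obtain ⟨⟨hx11, hx1X⟩, hx1η⟩ := hx1
  obtain ⟨w, hwm, hmin⟩ := exists_min_image (Icc 1 X)
    (fun x : ℕ => max ((x : ℝ) / X) (nd ((x : ℝ) * (s * ξ)) / η)) ⟨1, by simpa using hX⟩
  rw [mem_Icc] at hwm
  obtain ⟨lam, hl⟩ : ∃ lam : ℝ, lam = max ((w : ℝ) / X) (nd ((w : ℝ) * (s * ξ)) / η) := ⟨_, rfl⟩
  have hw0 : (0 : ℝ) < w := by exact_mod_cast hwm.1
  have hlam : 0 < lam := by
    rw [hl]
    exact lt_max_of_lt_left (by positivity)
  have hlam1 : lam ≤ 1 := by
    rw [hl]
    refine (hmin x1 (mem_Icc.2 ⟨hx11, hx1X⟩)).trans (max_le ?_ ?_)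
    · rw [div_le_one hX0]
      exact_mod_cast hx1X
    · rwa [div_le_one hη]
  have hwX : (w : ℝ) ≤ lam * X := by
    rw [← div_le_iff₀ hX0, hl]
    exact le_max_left _ _
  have hρ : nd ((w : ℝ) * (s * ξ)) ≤ lam * η := by
    rw [← div_le_iff₀ hη, hl]
    exact le_max_right _ _
  have hws : 1 ≤ w * s := Nat.mul_pos hwm.1 hs
  have hroth := hR (w * s) hws
  have hcast : ((w * s : ℕ) : ℝ) * ξ = (w : ℝ) * (s * ξ) := by
    push_cast
    ring
  rw [hcast] at hroth
  have hws0 : (0 : ℝ) < ((w * s : ℕ) : ℝ) := by exact_mod_cast hws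
  have hρ0 : 0 < nd ((w : ℝ) * (s * ξ)) := lt_of_lt_of_le (by positivity) hroth
  have hmax : lam * X ≤ w ∨ lam * η ≤ nd ((w : ℝ) * (s * ξ)) := by
    rcases le_total ((w : ℝ) / X) (nd ((w : ℝ) * (s * ξ)) / η) with h | h
    · right
      rw [max_eq_right h] at hl
      rw [hl, div_mul_cancel₀ _ hη.ne']
    · left
      rw [max_eq_left h] at hl
      rw [hl, div_mul_cancel₀ _ hX0.ne']
  have hcore := lat_core (s * ξ) X w η lam hwm.1 hX hη hlam hlam1 hwX hρ hρ0 hmax
    (fun u hu1 huX hu hun => by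
      have h := hmin u (mem_Icc.2 ⟨hu1, huX⟩)
      rw [← hl] at h
      rcases le_max_iff.1 h with h | h
      · rw [le_div_iff₀ hX0] at h
        linarith
      · rw [le_div_iff₀ hη] at h
        linarith)
  -- the bound for `1 / lam`
  have h1 : ((w * s : ℕ) : ℝ) ^ (1 + δ) ≤ lam * ((s : ℝ) * X) ^ (1 + δ) := by
    calc ((w * s : ℕ) : ℝ) ^ (1 + δ) ≤ (lam * ((s : ℝ) * X)) ^ (1 + δ) := by
          refine Real.rpow_le_rpow hws0.le ?_ (by linarith)
          push_cast
          have := mul_le_mul_of_nonneg_right hwX hs0.le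
          linarith
      _ = lam ^ (1 + δ) * ((s : ℝ) * X) ^ (1 + δ) := Real.mul_rpow hlam.le (by positivity)
      _ ≤ lam * ((s : ℝ) * X) ^ (1 + δ) := by
          apply mul_le_mul_of_nonneg_right _ (by positivity)
          calc lam ^ (1 + δ) ≤ lam ^ (1 : ℝ) :=
                Real.rpow_le_rpow_of_exponent_ge hlam hlam1 (by linarith)
            _ = lam := Real.rpow_one _
  have h2 : c ≤ lam ^ 2 * (η * ((s : ℝ) * X) ^ (1 + δ)) := by
    have e1 : ((w * s : ℕ) : ℝ) ^ (-(1 + δ)) * ((w * s : ℕ) : ℝ) ^ (1 + δ) = 1 := by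
      rw [← Real.rpow_add hws0]
      simp
    calc c = c * ((w * s : ℕ) : ℝ) ^ (-(1 + δ)) * ((w * s : ℕ) : ℝ) ^ (1 + δ) := by
          rw [mul_assoc, e1, mul_one]
      _ ≤ (lam * η) * (lam * ((s : ℝ) * X) ^ (1 + δ)) :=
          mul_le_mul (hroth.trans hρ) h1 (by positivity) (by positivity)
      _ = _ := by ring
  have h3 : √c ≤ lam * (η * ((s : ℝ) * X) ^ (1 + δ)) ^ ((1 : ℝ) / 2) := by
    rw [← Real.sqrt_eq_rpow]
    calc √c ≤ √(lam ^ 2 * (η * ((s : ℝ) * X) ^ (1 + δ))) := Real.sqrt_le_sqrt h2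
      _ = lam * √(η * ((s : ℝ) * X) ^ (1 + δ)) := by
          rw [Real.sqrt_mul (by positivity), Real.sqrt_sq hlam.le]
  have h4 : 3 / lam ≤ 3 / √c * (η * ((s : ℝ) * X) ^ (1 + δ)) ^ ((1 : ℝ) / 2) := by
    rw [div_le_iff₀ hlam]
    have h5 : 3 / √c * √c ≤ 3 / √c * (lam * (η * ((s : ℝ) * X) ^ (1 + δ)) ^ ((1 : ℝ) / 2)) :=
      mul_le_mul_of_nonneg_left h3 (by positivity)
    rw [div_mul_cancel₀ _ hsq.ne'] at h5
    linarith
  have hP0 : 0 ≤ (η * ((s : ℝ) * X) ^ (1 + δ)) ^ ((1 : ℝ) / 2) := by positivity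
  have hQ0 : 0 ≤ 3 / √c * (η * X) := by positivity
  calc _ ≤ 3 / lam + 12 * η * X := hcore
    _ ≤ 3 / √c * (η * ((s : ℝ) * X) ^ (1 + δ)) ^ ((1 : ℝ) / 2) + 12 * η * X := by linarith
    _ ≤ _ := by
        have e2 : (12 + 3 / √c) * (η * X + (η * ((s : ℝ) * X) ^ (1 + δ)) ^ ((1 : ℝ) / 2)) =
          12 * η * X + 12 * (η * ((s : ℝ) * X) ^ (1 + δ)) ^ ((1 : ℝ) / 2) + 3 / √c * (η * X) +
            3 / √c * (η * ((s : ℝ) * X) ^ (1 + δ)) ^ ((1 : ℝ) / 2) := by ring
        rw [e2]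
        linarith

end Pool.Agent.Helper40.MD
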